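import Pool.Agent.Lib_helper35.HDMain

/-!
# Self-similar groups whose closures have irrational Hausdorff dimension

For every odd prime `p` there is a finite invertible automaton over the alphabet with `2p` letters
whose states generate a group `L` such that the Hausdorff dimension of the closure of `L` in
`Aut T` is irrational. All vertex permutations of `L` lie in a Sylow `p`-subgroup of `Sym (2p)`, and
the Hausdorff dimension of the closure relative to the corresponding pro-`p` group (a Sylow pro-`p`
subgroup of `Aut T`) is irrational as well, so the irrationality does not come from the quotient
`log p / log (2p)!`.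

The group: `A = {f ↦ t^k f + h}` acting on power series over the field with `p` elements, where
`t = 1 + X` or `t = 1 + X^2` (a lamplighter-type group, generated by a finite automaton over `p`
letters). The alphabet is split into two blocks of `p` letters; one copy of `A` acts on the first
block in the standard way and has itself as its section at one letter of the second block, and
symmetrically for a second copy. The orders of the level quotients satisfy an exact recursion that
involves the order `p^(ρ n)` of `t` modulo `X^n`, and the irrational number
`∑ (2p)^(-J p^r)` appears in the limit.
-/

set_option autoImplicit false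

namespace Pool.Agent.Results.MP_b868f5_al.IrrationalDim

open Pool.Agent.HD

theorem result (p : ℕ) (hp : p.Prime) (hp2 : p ≠ 2) :
    ∃ (P : Sylow p (Equiv.Perm (Fin (2 * p)))) (S : Set (AutT (Fin (2 * p)))),
      IsAutomaton S ∧
      Subgroup.closure S ≤ W (P : Subgroup (Equiv.Perm (Fin (2 * p)))) ∧
      Irrational (Dim (clos (Subgroup.closure S))) ∧
      Irrational (relDim (P : Subgroup (Equiv.Perm (Fin (2 * p)))) (clos (Subgroup.closure S))) := by
  haveI : Fact p.Prime := ⟨hp⟩
  obtain ⟨P, S, h1, h2, h3, h4⟩ := main (p := p) hp2
  exact ⟨P, S, h1, h2, h4, h3⟩

end Pool.Agent.Results.MP_b868f5_al.IrrationalDim
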